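import Mathlib
import Pool.Agent.H663R5.BF.Struct

/-!
# The Komlós problem for vectors with locally sparse supports
-/

set_option autoImplicit false

namespace Pool.Agent.Y414.Kom

open Finset H294BF

variable {d n : ℕ}

/-- If every square subsystem has normalised absolute sum at most its order, all rows can be kept
below the thresholds. -/
theorem signing_of_local (c : Fin d → Fin n → ℝ) (T : Fin d → ℝ) (hT : ∀ k, 0 < T k)
    (h : ∀ (S : Finset (Fin n)) (R : Finset (Fin d)), R.card = S.card →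
      ∑ k ∈ R, (∑ j ∈ S, |c k j|) / T k ≤ S.card) :
    ∃ x : Fin n → ℝ, (∀ j, x j = 1 ∨ x j = -1) ∧ ∀ k, |∑ j, c k j * x j| ≤ T k := by
  have hH : ∀ S : Finset (Fin n), S.Nonempty →
      (univ.filter (fun i => T i < ∑ j ∈ S, |c i j|)).card < S.card := by
    intro S hS
    by_contra hcon
    push Not at hcon
    obtain ⟨R, hR, hRc⟩ := Finset.exists_subset_card_eq hcon
    have h1 := h S R hRc
    have h2 : ∑ k ∈ R, (1 : ℝ) < ∑ k ∈ R, (∑ j ∈ S, |c k j|) / T k := by
      apply Finset.sum_lt_sum_of_nonempty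
      · rw [← Finset.card_pos, hRc]
        exact Finset.card_pos.2 hS
      · intro k hk
        have h3 := (Finset.mem_filter.1 (hR hk)).2
        rw [lt_div_iff₀ (hT k)]
        linarith
    rw [Finset.sum_const, nsmul_eq_mul, mul_one, hRc] at h2
    linarith
  obtain ⟨x, hx⟩ := hall_signing c T (fun i => (hT i).le) hH
  have hsg : ∀ b : Bool, sg b = 1 ∨ sg b = -1 := fun b => by cases b <;> simp [sg]
  exact ⟨fun j => sg (x j), fun j => hsg _, hx⟩

/-- Cauchy-Schwarz on a square subsystem. -/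
theorem cs_square (a : Fin n → Fin d → ℝ) (T : Fin d → ℝ)
    (ha : ∀ j, ∑ k, a j k ^ 2 ≤ 1) (S : Finset (Fin n)) (R : Finset (Fin d))
    (h : ∑ k ∈ R, ((S.filter (fun j => a j k ≠ 0)).card : ℝ) / T k ^ 2 ≤ S.card) :
    ∑ k ∈ R, (∑ j ∈ S, |a j k|) / T k ≤ S.card := by
  have h1 : ∑ k ∈ R, (∑ j ∈ S, |a j k|) / T k
      = ∑ p ∈ R ×ˢ S, |a p.2 p.1| * (if a p.2 p.1 ≠ 0 then 1 / T p.1 else 0) := by
    rw [Finset.sum_product]
    apply Finset.sum_congr rfl
    intro k _
    rw [Finset.sum_div]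
    apply Finset.sum_congr rfl
    intro j _
    by_cases h0 : a j k = 0
    · simp [h0]
    · simp [h0, div_eq_mul_inv]
  have h2 : ∑ p ∈ R ×ˢ S, |a p.2 p.1| ^ 2 ≤ S.card := by
    rw [Finset.sum_product_right]
    calc ∑ j ∈ S, ∑ k ∈ R, |a j k| ^ 2 ≤ ∑ j ∈ S, (1 : ℝ) := by
          apply Finset.sum_le_sum
          intro j _
          calc ∑ k ∈ R, |a j k| ^ 2 = ∑ k ∈ R, a j k ^ 2 :=
                Finset.sum_congr rfl fun k _ => sq_abs _
            _ ≤ ∑ k, a j k ^ 2 :=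
                Finset.sum_le_sum_of_subset_of_nonneg (Finset.subset_univ _)
                  fun k _ _ => sq_nonneg _
            _ ≤ 1 := ha j
      _ = S.card := by simp
  have h3 : ∑ p ∈ R ×ˢ S, (if a p.2 p.1 ≠ 0 then 1 / T p.1 else 0) ^ 2 ≤ (S.card : ℝ) := by
    refine le_trans (le_of_eq ?_) h
    rw [Finset.sum_product]
    apply Finset.sum_congr rfl
    intro k _
    have h4 : ∀ j ∈ S, (if a j k ≠ 0 then 1 / T k else 0) ^ 2
        = if a j k ≠ 0 then 1 / T k ^ 2 else 0 := by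
      intro j _
      by_cases h0 : a j k = 0
      · simp [h0]
      · simp [h0]
    simp only
    rw [Finset.sum_congr rfl h4, ← Finset.sum_filter, Finset.sum_const, nsmul_eq_mul]
    ring
  have h4 := Finset.sum_mul_sq_le_sq_mul_sq (R ×ˢ S) (fun p => |a p.2 p.1|)
    (fun p => if a p.2 p.1 ≠ 0 then 1 / T p.1 else 0)
  rw [h1]
  have h5 : (∑ p ∈ R ×ˢ S, |a p.2 p.1| * (if a p.2 p.1 ≠ 0 then 1 / T p.1 else 0)) ^ 2
      ≤ (S.card : ℝ) ^ 2 := by
    refine h4.trans ?_
    rw [sq]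
    exact mul_le_mul h2 h3 (Finset.sum_nonneg fun _ _ => sq_nonneg _) (Nat.cast_nonneg _)
  exact abs_le_of_sq_le_sq' h5 (Nat.cast_nonneg _) |>.2

/-- Komlós with row dependent thresholds, local sparsity and a perturbation. -/
theorem local_komlos (a b : Fin n → Fin d → ℝ) (T : Fin d → ℝ) (t : ℝ) (hT : ∀ k, 0 < T k)
    (ha : ∀ j, ∑ k, a j k ^ 2 ≤ 1)
    (hb : ∀ (S : Finset (Fin n)) (R : Finset (Fin d)), R.card = S.card →
      ∑ k ∈ R, (∑ j ∈ S, |b j k|) / T k ≤ t * S.card)
    (h : ∀ (S : Finset (Fin n)) (R : Finset (Fin d)), R.card = S.card →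
      ∑ k ∈ R, ((S.filter (fun j => a j k ≠ 0)).card : ℝ) / T k ^ 2 ≤ S.card)
    (ht : 0 ≤ t) :
    ∃ x : Fin n → ℝ, (∀ j, x j = 1 ∨ x j = -1) ∧
      ∀ k, |∑ j, x j * (a j k + b j k)| ≤ (1 + t) * T k := by
  obtain ⟨x, hx, hx2⟩ := signing_of_local (fun k j => a j k + b j k) (fun k => (1 + t) * T k)
    (fun k => mul_pos (by linarith) (hT k)) (by
      intro S R hRS
      have h1 := cs_square a T ha S R (h S R hRS)
      have h2 : ∑ k ∈ R, (∑ j ∈ S, |b j k|) / T k ≤ t * S.card := hb S R hRS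
      have h3 : ∀ k ∈ R, (∑ j ∈ S, |a j k + b j k|) / ((1 + t) * T k)
          ≤ (1 + t)⁻¹ * ((∑ j ∈ S, |a j k|) / T k + (∑ j ∈ S, |b j k|) / T k) := by
        intro k _
        have h4 : ∑ j ∈ S, |a j k + b j k| ≤ ∑ j ∈ S, |a j k| + ∑ j ∈ S, |b j k| := by
          rw [← Finset.sum_add_distrib]
          exact Finset.sum_le_sum fun j _ => abs_add_le _ _
        have h5 : 0 < (1 + t) := by linarith
        calc (∑ j ∈ S, |a j k + b j k|) / ((1 + t) * T k)
            ≤ (∑ j ∈ S, |a j k| + ∑ j ∈ S, |b j k|) / ((1 + t) * T k) := by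
              apply div_le_div_of_nonneg_right h4
              exact (mul_pos h5 (hT k)).le
          _ = _ := by
              have h6 := (hT k).ne'
              field_simp
      refine (Finset.sum_le_sum h3).trans ?_
      rw [← Finset.mul_sum, Finset.sum_add_distrib]
      rw [inv_mul_le_iff₀ (by linarith)]
      nlinarith)
  refine ⟨x, hx, fun k => ?_⟩
  have h3 := hx2 k
  simp_rw [mul_comm (x _)]
  exact h3

/-- The form with an assignment of the nonzero entries to vectors or to coordinates. -/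
theorem assigned_komlos (a b : Fin n → Fin d → ℝ) (p : ℕ) (q : Fin d → ℕ) (al be t : ℝ)
    (hp : 1 ≤ p) (hal : 0 < al) (hbe : 0 < be) (hab : 1 / al + 1 / be ≤ 1)
    (ha : ∀ j, ∑ k, a j k ^ 2 ≤ 1)
    (f : Fin n → Fin d → Prop)
    (hf1 : ∀ j, (Set.ncard {k | a j k ≠ 0 ∧ f j k}) ≤ p)
    (hf2 : ∀ k, (Set.ncard {j | a j k ≠ 0 ∧ ¬ f j k}) ≤ q k)
    (ht : 0 ≤ t)
    (hb : ∀ (S : Finset (Fin n)) (R : Finset (Fin d)), R.card = S.card →
      ∑ k ∈ R, (∑ j ∈ S, |b j k|) / Real.sqrt (max (al * p) (be * q k)) ≤ t * S.card) :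
    ∃ x : Fin n → ℝ, (∀ j, x j = 1 ∨ x j = -1) ∧
      ∀ k, |∑ j, x j * (a j k + b j k)| ≤ (1 + t) * Real.sqrt (max (al * p) (be * q k)) := by
  classical
  have hp0 : (0 : ℝ) < p := by exact_mod_cast hp
  have hm : ∀ k, 0 < max (al * p) (be * q k) := fun k =>
    lt_max_of_lt_left (mul_pos hal hp0)
  refine local_komlos a b _ t (fun k => Real.sqrt_pos.2 (hm k)) ha hb ?_ ht
  intro S R hRS
  have h1 : ∀ k ∈ R, ((S.filter (fun j => a j k ≠ 0)).card : ℝ)
      / Real.sqrt (max (al * p) (be * q k)) ^ 2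
      ≤ ((S.filter (fun j => a j k ≠ 0 ∧ f j k)).card : ℝ) / (al * p) + 1 / be := by
    intro k _
    rw [Real.sq_sqrt (hm k).le]
    have h2 : (S.filter (fun j => a j k ≠ 0)).card
        = (S.filter (fun j => a j k ≠ 0 ∧ f j k)).card
          + (S.filter (fun j => a j k ≠ 0 ∧ ¬ f j k)).card := by
      rw [← Finset.card_filter_add_card_filter_not (s := S.filter (fun j => a j k ≠ 0))
        (fun j => f j k), Finset.filter_filter, Finset.filter_filter]
    have h3 : (S.filter (fun j => a j k ≠ 0 ∧ ¬ f j k)).card ≤ q k := by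
      refine le_trans ?_ (hf2 k)
      rw [← Set.ncard_coe_finset]
      apply Set.ncard_le_ncard
      · intro j hj
        simp only [Finset.coe_filter, Set.mem_ofPred_eq] at hj
        exact hj.2
      · exact Set.toFinite _
    rw [h2]
    push_cast
    rw [add_div]
    apply add_le_add
    · apply div_le_div_of_nonneg_left (Nat.cast_nonneg _) (mul_pos hal hp0) (le_max_left _ _)
    · rw [div_le_div_iff₀ (hm k) hbe, one_mul]
      calc ((S.filter (fun j => a j k ≠ 0 ∧ ¬ f j k)).card : ℝ) * be ≤ (q k : ℝ) * be :=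
            mul_le_mul_of_nonneg_right (by exact_mod_cast h3) hbe.le
        _ = be * q k := mul_comm _ _
        _ ≤ _ := le_max_right _ _
  refine (Finset.sum_le_sum h1).trans ?_
  rw [Finset.sum_add_distrib, ← Finset.sum_div, Finset.sum_const, nsmul_eq_mul, hRS]
  have h4 : ∑ k ∈ R, ((S.filter (fun j => a j k ≠ 0 ∧ f j k)).card : ℝ) ≤ p * S.card := by
    have h5 : ∑ k ∈ R, (S.filter (fun j => a j k ≠ 0 ∧ f j k)).card
        = ∑ j ∈ S, (R.filter (fun k => a j k ≠ 0 ∧ f j k)).card := by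
      simp only [Finset.card_filter]
      rw [Finset.sum_comm]
    have h6 : ∑ j ∈ S, (R.filter (fun k => a j k ≠ 0 ∧ f j k)).card ≤ ∑ j ∈ S, p := by
      apply Finset.sum_le_sum
      intro j _
      refine le_trans ?_ (hf1 j)
      rw [← Set.ncard_coe_finset]
      apply Set.ncard_le_ncard
      · intro k hk
        simp only [Finset.coe_filter, Set.mem_ofPred_eq] at hk
        exact hk.2
      · exact Set.toFinite _
    rw [Finset.sum_const, smul_eq_mul] at h6
    have h7 : ∑ k ∈ R, (S.filter (fun j => a j k ≠ 0 ∧ f j k)).card ≤ p * S.card := by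
      rw [h5, mul_comm]; exact h6
    exact_mod_cast h7
  have hs : (0 : ℝ) ≤ S.card := Nat.cast_nonneg _
  calc (∑ k ∈ R, ((S.filter (fun j => a j k ≠ 0 ∧ f j k)).card : ℝ)) / (al * p)
        + (S.card : ℝ) * (1 / be)
      ≤ (p * S.card) / (al * p) + (S.card : ℝ) * (1 / be) := by
        gcongr
    _ = S.card * (1 / al + 1 / be) := by
        field_simp
    _ ≤ S.card * 1 := mul_le_mul_of_nonneg_left hab hs
    _ = S.card := mul_one _

/-- The uniform form. -/
theorem uniform_komlos (a b : Fin n → Fin d → ℝ) (D t : ℝ) (hD : 0 < D)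
    (ha : ∀ j, ∑ k, a j k ^ 2 ≤ 1)
    (hs : ∀ (S : Finset (Fin n)) (R : Finset (Fin d)), R.card = S.card →
      (((S ×ˢ R).filter (fun p => a p.1 p.2 ≠ 0)).card : ℝ) ≤ D * S.card)
    (hb : ∀ (S : Finset (Fin n)) (R : Finset (Fin d)), R.card = S.card →
      ∑ j ∈ S, ∑ k ∈ R, |b j k| ≤ t * S.card)
    (ht : 0 ≤ t) :
    ∃ x : Fin n → ℝ, (∀ j, x j = 1 ∨ x j = -1) ∧
      ∀ k, |∑ j, x j * (a j k + b j k)| ≤ Real.sqrt D + t := by
  have hD' : 0 < Real.sqrt D := Real.sqrt_pos.2 hD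
  obtain ⟨x, hx, h⟩ := local_komlos a b (fun _ => Real.sqrt D) (t / Real.sqrt D) (fun _ => hD') ha
    (by
      intro S R hRS
      have h1 := hb S R hRS
      rw [← Finset.sum_div, Finset.sum_comm, div_mul_eq_mul_div]
      exact div_le_div_of_nonneg_right h1 hD'.le)
    (by
      intro S R hRS
      have h1 := hs S R hRS
      have h2 : (((S ×ˢ R).filter (fun p => a p.1 p.2 ≠ 0)).card : ℝ)
          = ∑ k ∈ R, ((S.filter (fun j => a j k ≠ 0)).card : ℝ) := by
        have h3 : ((S ×ˢ R).filter (fun p => a p.1 p.2 ≠ 0)).card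
            = ∑ k ∈ R, (S.filter (fun j => a j k ≠ 0)).card := by
          simp only [Finset.card_filter]
          rw [Finset.sum_product_right]
        exact_mod_cast h3
      rw [← Finset.sum_div, ← h2, Real.sq_sqrt hD.le, div_le_iff₀ hD]
      linarith)
    (div_nonneg ht hD'.le)
  refine ⟨x, hx, fun k => ?_⟩
  have h1 := h k
  have h2 : (1 + t / Real.sqrt D) * Real.sqrt D = Real.sqrt D + t := by
    field_simp
  rwa [h2] at h1

end Pool.Agent.Y414.Kom
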